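import Pool.Agent.MP_1246c0_nt.H12.SpecN

/-! From rectangles to the hyperbola. -/

namespace Pool.Agent.MP_1246c0_nt.H12

open Finset

namespace HYP

variable {f : ℕ → ℕ → ℝ} {T : ℕ} {δ B : ℝ}

theorem core (H : ℕ → ℕ) (h0 : ∀ p', f 0 p' = 0) (hδ : 0 ≤ δ) (hH : ∀ p ∈ Icc 1 T, H p ≤ T / p)
    (hL : ∀ p ∈ Icc 1 T, |∑ p' ∈ Ico (H p + 1) (T / p + 1), f p p'| ≤ 2 * δ * T / p)
    (hB : |∑ p ∈ Icc 1 T, ∑ p' ∈ range (H p + 1), f p p'| ≤ B) :
    |∑ p ∈ range (T + 1), ∑ p' ∈ range (T + 1), if p * p' ≤ T then f p p' else 0| ≤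
      B + 2 * δ * T * (1 + Real.log T) := by
  have e : (∑ p ∈ range (T + 1), ∑ p' ∈ range (T + 1), if p * p' ≤ T then f p p' else 0) =
      ∑ p ∈ Icc 1 T, ∑ p' ∈ range (H p + 1), f p p' +
        ∑ p ∈ Icc 1 T, ∑ p' ∈ Ico (H p + 1) (T / p + 1), f p p' := by
    rw [← sum_add_distrib, ← sum_subset (s₁ := Icc 1 T) (fun p hp => by
      simp only [mem_Icc, mem_range] at hp ⊢
      omega) fun p hp hp' => by
        obtain rfl : p = 0 := by
          simp only [mem_Icc, mem_range] at hp hp'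
          omega
        simp [h0]]
    refine sum_congr rfl fun p hp => ?_
    have p0 : 0 < p := (mem_Icc.1 hp).1
    rw [sum_range_add_sum_Ico _ (Nat.succ_le_succ (hH p hp)), ← sum_filter]
    refine sum_congr (Finset.ext fun q => ?_) fun _ _ => rfl
    simp only [mem_filter, mem_range, Nat.lt_succ_iff, Nat.le_div_iff_mul_le p0, mul_comm q]
    exact ⟨fun h => h.2, fun h => ⟨(Nat.le_mul_of_pos_left q p0).trans h, h⟩⟩
  rw [e]
  refine (abs_add_le _ _).trans (add_le_add hB ((abs_sum_le_sum_abs _ _).trans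
    ((sum_le_sum hL).trans ?_)))
  have h := harmonic_le_one_add_log T
  rw [harmonic_eq_sum_Icc] at h
  push_cast at h
  simp only [div_eq_mul_inv, ← mul_sum]
  exact mul_le_mul_of_nonneg_left h (by positivity)

theorem cnt (h : ∀ p p', |f p p'| ≤ 1) (p a b : ℕ) (hab : a ≤ b) :
    |∑ p' ∈ Ico (a + 1) (b + 1), f p p'| ≤ (b : ℝ) - a := by
  refine (abs_sum_le_sum_abs _ _).trans ((sum_le_card_nsmul _ _ 1 fun q _ => h p q).trans ?_)
  rw [Nat.card_Ico, Nat.succ_sub_succ, nsmul_eq_mul, mul_one, Nat.cast_sub hab]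

end HYP

open HYP in
theorem rowHYP : SHYP := by
  intro f Y T δ h1 h2 h3 h4
  have z1 : ∀ q, f 0 q = 0 := fun q => by
    by_contra h
    exact absurd (h2 _ _ h).1 (Nat.not_lt_zero _)
  have z2 : ∀ q, f q 0 = 0 := fun q => by
    by_contra h
    exact absurd (h2 _ _ h).2 (Nat.not_lt_zero _)
  have hδ : 0 < δ := by
    by_contra h
    nlinarith [(Nat.cast_nonneg Y : (0 : ℝ) ≤ Y)]
  have lT := Real.log_natCast_nonneg T
  have T0 : (0 : ℝ) ≤ T := Nat.cast_nonneg T
  have dT := mul_nonneg hδ.le T0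
  have dl := mul_nonneg dT lT
  rcases le_total 1 δ with d1 | d1
  · refine (core (B := 0) (fun _ => 0) z1 hδ.le (fun _ _ => Nat.zero_le _) (fun p hp => ?_)
      (by simp [z2])).trans (by nlinarith)
    refine (cnt h1 p 0 _ (Nat.zero_le _)).trans ?_
    rw [Nat.cast_zero, sub_zero]
    exact Nat.cast_div_le.trans (div_le_div_of_nonneg_right (by nlinarith) (Nat.cast_nonneg _))
  let j : ℕ → ℕ := fun p => ⌊Real.log (T / p) / δ⌋₊
  let h : ℕ → ℕ := fun i => ⌊Real.exp (δ * i)⌋₊
  have one : ∀ p ∈ Icc 1 T, (0 : ℝ) < p ∧ (1 : ℝ) ≤ T / p ∧ (T : ℝ) / p ≤ T := fun p hp => by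
    obtain ⟨a, b⟩ := mem_Icc.1 hp
    have a' : (1 : ℝ) ≤ p := by exact_mod_cast a
    have b' : (p : ℝ) ≤ T := by exact_mod_cast b
    exact ⟨by linarith, (one_le_div (by linarith)).2 b', div_le_self T0 a'⟩
  have lo : ∀ p ∈ Icc 1 T, Real.exp (δ * j p) ≤ T / p := fun p hp => by
    obtain ⟨-, b, -⟩ := one p hp
    rw [← Real.le_log_iff_exp_le (by linarith), mul_comm, ← le_div_iff₀ hδ]
    exact Nat.floor_le (div_nonneg (Real.log_nonneg b) hδ.le)
  have hi : ∀ p ∈ Icc 1 T, (1 - δ) * (T / p) ≤ Real.exp (δ * j p) := fun p hp => by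
    obtain ⟨-, b, -⟩ := one p hp
    have a := Nat.lt_floor_add_one (Real.log (T / p) / δ)
    rw [div_lt_iff₀ hδ] at a
    have c : Real.exp (-δ + Real.log (T / p)) ≤ Real.exp (δ * j p) :=
      Real.exp_le_exp.2 (by simp only [j]; linarith)
    rw [Real.exp_add, Real.exp_log (by linarith)] at c
    exact (mul_le_mul_of_nonneg_right (by linarith [Real.add_one_le_exp (-δ)])
      (by linarith)).trans c
  have hH : ∀ p ∈ Icc 1 T, h (j p) ≤ T / p := fun p hp => by
    rw [← Nat.floor_div_eq_div (K := ℝ)]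
    exact Nat.floor_le_floor (lo p hp)
  refine (core (B := δ * T * (Real.log T + 1)) (fun p => h (j p)) z1 hδ.le hH (fun p hp => ?_)
    ?_).trans (by nlinarith)
  · obtain ⟨a, b, -⟩ := one p hp
    rw [mul_div_assoc]
    by_cases hY : T / p ≤ Y
    · rw [sum_eq_zero fun q hq => ?_, abs_zero]
      · positivity
      · by_contra k
        have := (h2 _ _ k).2
        have := (mem_Ico.1 hq).2
        omega
    · have c : (Y : ℝ) ≤ (T / p : ℕ) := by exact_mod_cast (not_le.1 hY).le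
      have d : ((T / p : ℕ) : ℝ) ≤ T / p := Nat.cast_div_le
      have e := Nat.lt_floor_add_one (Real.exp (δ * j p))
      have g := hi p hp
      have k := mul_le_mul_of_nonneg_left (c.trans d) hδ.le
      refine (cnt h1 p _ _ (hH p hp)).trans ?_
      simp only [h]
      nlinarith
  · rw [← sum_fiberwise_of_maps_to (t := range (⌊Real.log T / δ⌋₊ + 1)) (g := j) fun p hp => by
      obtain ⟨-, b, c⟩ := one p hp
      exact mem_range.2 (Nat.lt_succ_of_le (Nat.floor_le_floor (div_le_div_of_nonneg_right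
        (Real.log_le_log (by linarith) c) hδ.le)))]
    refine (abs_sum_le_sum_abs _ _).trans ((sum_le_card_nsmul _ _ (δ ^ 2 * T) fun i _ => ?_).trans ?_)
    · rcases ((Icc 1 T).filter fun p => j p = i).eq_empty_or_nonempty with e | e
      · rw [e, sum_empty, abs_zero]
        positivity
      · obtain ⟨a, b⟩ := mem_filter.1 (max'_mem _ e)
        have c := hH _ a
        rw [b] at c
        rw [sum_congr rfl fun p hp => by rw [(mem_filter.1 hp).2]]
        refine (h4 _ (mem_Icc.1 a).2 _ (c.trans (Nat.div_le_self _ _)) _ fun p hp =>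
          mem_range.2 (Nat.lt_succ_of_le (le_max' _ p hp))).trans ?_
        rw [mul_assoc]
        refine mul_le_mul_of_nonneg_left ?_ (by positivity)
        exact_mod_cast (Nat.mul_le_mul_left _ c).trans (Nat.mul_div_le _ _)
    · rw [card_range, nsmul_eq_mul]
      push_cast
      have a := Nat.floor_le (div_nonneg lT hδ.le)
      rw [le_div_iff₀ hδ] at a
      nlinarith [mul_le_mul_of_nonneg_left a dT, mul_le_mul_of_nonneg_left d1 dT]

end Pool.Agent.MP_1246c0_nt.H12
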